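import Pool.Agent.H10.ALG.Targets

/-!
Row AMS of the board `alg_modules`: amplification of combinations of rectangles.
-/

set_option autoImplicit false

namespace Pool.Agent.H11.ALG

open Pool.Agent.H10.ALG

theorem pf_AMS (hSMP : T_SMP) : T_AMS := by
  intro X B _ _ _ _ N f m hf hg
  obtain ⟨h1, h0, -, -, hmul, -, hsum, hmono, hnn⟩ := hSMP X B
  have hN : 0 ≤ N := (hnn N f hf).1
  have hpow : ∀ (h : Cf X B → ℝ), Simp N h → ∀ k : ℕ, Simp (N ^ k) (fun S => h S ^ k) := by
    intro h hh k
    induction k with
    | zero =>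
      simp only [pow_zero]
      exact h1
    | succ k ih =>
      simp only [pow_succ]
      exact hmul _ _ _ _ ih hh
  have hterm : ∀ G ∈ (Finset.range m).powerset, Simp (N ^ m) (fun S : Cf X B =>
      if m ≤ 2 * G.card then f S ^ G.card * (1 - f S) ^ (m - G.card) else 0) := by
    intro G hG
    have hc : G.card ≤ m := by
      have := Finset.card_le_card (Finset.mem_powerset.1 hG)
      rwa [Finset.card_range] at this
    by_cases hm : m ≤ 2 * G.card
    · simp only [if_pos hm]
      have h2 := hmul _ _ _ _ (hpow f hf G.card) (hpow _ hg (m - G.card))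
      rw [← pow_add, Nat.add_sub_cancel' hc] at h2
      exact h2
    · simp only [if_neg hm]
      exact hmono 0 _ _ (pow_nonneg hN m) h0
  have h3 := hsum (Finset ℕ) (Finset.range m).powerset (fun _ => N ^ m)
    (fun G S => if m ≤ 2 * G.card then f S ^ G.card * (1 - f S) ^ (m - G.card) else 0) hterm
  have e : ∑ _i ∈ (Finset.range m).powerset, N ^ m = (2 * N) ^ m := by
    rw [Finset.sum_const, Finset.card_powerset, Finset.card_range, nsmul_eq_mul, mul_pow]
    push_cast
    rfl
  rw [e] at h3
  exact h3

end Pool.Agent.H11.ALG
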